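import Pool.Agent.TH113.J1773
import Pool.Agent.Y114.RM.Stm

/-!
# Project RM, job NAT: the trace of `h` on a subspace stable under `e` and `h` is a natural number
-/

set_option autoImplicit false

universe u v

namespace Pool.Agent.Y960.RM

open Module Pool.Agent.TH113.J1773 Pool.Agent.Y114.RM

theorem nat : S_NAT.{u, v} := by
  intro K _ _ V _ _ _ e f h hef hhe hhf W he hh
  obtain ⟨d, hd⟩ : ∃ d, finrank K W = d := ⟨_, rfl⟩
  obtain ⟨b⟩ : Nonempty (Basis (Fin d) K W) := ⟨Module.finBasisOfFinrankEq K W hd⟩
  obtain ⟨F, hF⟩ : ∃ F, F = FW (K := K) (fun j => (b j : V)) := ⟨_, rfl⟩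
  have hext : ∀ g : Dual K W, ∃ g' : Dual K V, ∀ y : W, g' y = g y := by
    intro g
    obtain ⟨g', hg'⟩ := LinearMap.exists_extend g
    exact ⟨g', fun y => by rw [← hg']; rfl⟩
  choose ext hextd using hext
  have hcoord : ∀ i j, ext (b.coord i) (b j : V) = if i = j then 1 else 0 := by
    intro i j
    rw [hextd, Basis.coord_apply, Basis.repr_self, Finsupp.single_apply]
    by_cases hij : i = j
    · subst hij; simp
    · rw [if_neg hij, if_neg (Ne.symm hij)]
  have hFne : F ≠ 0 := by
    intro h0
    have h1 : F (fun i => ext (b.coord i)) = 1 := by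
      rw [hF, FW_apply]
      have : (Matrix.of fun i j => (ext (b.coord i)) (b j : V)) = (1 : Matrix (Fin d) (Fin d) K) := by
        ext i j
        rw [Matrix.of_apply, hcoord, Matrix.one_apply]
      rw [this, Matrix.det_one]
    rw [h0] at h1
    simp at h1
  have htre : LinearMap.trace K W (e.restrict he) = 0 := by
    have h1 : (h.restrict hh) * (e.restrict he) - (e.restrict he) * (h.restrict hh)
        = 2 • (e.restrict he) := by
      apply LinearMap.ext
      intro y
      apply Subtype.ext
      have := LinearMap.congr_fun hhe (y : V)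
      simpa using this
    have h2 := congrArg (LinearMap.trace K W) h1
    rw [map_sub, LinearMap.trace_mul_comm, sub_self, map_nsmul] at h2
    have h3 : (2 : K) * LinearMap.trace K W (e.restrict he) = 0 := by
      rw [h2, nsmul_eq_mul]; norm_num
    rcases mul_eq_zero.1 h3 with h4 | h4
    · exact absurd h4 two_ne_zero
    · exact h4
  have hhF : AA d h F = LinearMap.trace K W (h.restrict hh) • F := by rw [hF, AA_FW b h hh]
  have heF : AA d e F = 0 := by rw [hF, AA_FW b e he, htre, zero_smul]
  have r1 : AA d h * AA d e - AA d e * AA d h = 2 • AA d e := by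
    rw [AA_comm, hhe, AA_nsmul]
  have r2 : AA d h * AA d f - AA d f * AA d h = -(2 • AA d f) := by
    rw [AA_comm, hhf, AA_neg, AA_nsmul]
  have r3 : AA d e * AA d f - AA d f * AA d e = AA d h := by
    rw [AA_comm, hef]
  by_cases hz : AA (K := K) (V := V) d h = 0
  · refine ⟨0, ?_⟩
    rw [hz, LinearMap.zero_apply] at hhF
    rw [Nat.cast_zero]
    exact (smul_eq_zero.1 hhF.symm).resolve_right hFne
  · let _ : LieRing (Module.End K (MultilinearMap K (fun _ : Fin d => Dual K V) K)) :=
      LieRing.ofAssociativeRing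
    have t : IsSl2Triple (AA (K := K) (V := V) d h) (AA d e) (AA d f) :=
      ⟨hz, r3, r1, r2⟩
    have P : t.HasPrimitiveVectorWith F (LinearMap.trace K W (h.restrict hh)) :=
      ⟨hFne, by rw [Module.End.lie_apply, hhF], by
        rw [Module.End.lie_apply, heF]⟩
    exact P.exists_nat

end Pool.Agent.Y960.RM
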