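import Mathlib
import Pool.Agent.Y114.RM.Stm2

/-!
# Project RM, job TH: the operators are semisimple
-/

set_option autoImplicit false

namespace Pool.Agent.Y960.RM

open Module Pool.Agent.TH118.SG Pool.Agent.Y114.RM

theorem ss : S_SS := by
  intro K _ _ _ V _ _ _ θ g Y hY x hx
  classical
  obtain ⟨Z, hZ⟩ := exists_op g fun β => (ext0 θ β)⁻¹
  have h1 : Z * (Y * Y) = Y := by
    refine op_ext g fun β x hx => ?_
    rw [Module.End.mul_apply, Module.End.mul_apply, hY β x hx, map_smul, hY β x hx, map_smul,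
      map_smul, hZ β x hx, smul_smul, smul_smul]
    by_cases h0 : ext0 θ β = 0
    · rw [h0]
      simp
    · rw [mul_inv_cancel_right₀ h0]
  calc Y x = (Z * (Y * Y)) x := by rw [h1]
    _ = Z (Y (Y x)) := rfl
    _ = 0 := by rw [hx, map_zero]

end Pool.Agent.Y960.RM
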